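import Pool.Agent.TWQK.K5
import Pool.Agent.TWK.FIN1
import Pool.Agent.TWK.OMP

/-!
# TWQK, module FIN1: block K combined with the unit theorem, `K ≤ RF (idl (f p))` (helper96), Theorem C of MP_b78433_nt

`UnitAt` is the definition of `Pool/Agent/TWK/StK6.lean`. `K` may be ramified above `p`.
-/

set_option autoImplicit false

open NumberField IsDedekindDomain

namespace Pool.Agent.TWQK

open _root_.MU3 Pool.Agent.MU3 Pool.Agent.MU3A Pool.Agent.MU3B Pool.Agent.RI Pool.Agent.RID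
  Pool.Agent.MUX Pool.Agent.MUXK Pool.Agent.MUXW Pool.Agent.MUXJ Pool.Agent.MUXZ Pool.Agent.TWK
open Pool.Agent.MU3V (Sub GD)

/-- SETD: the field `K'' = K' = RF (idl (f p))`. -/
def S_SETD : Prop := ∀ (p l : ℕ) [Fact p.Prime] [Fact l.Prime] (h f : ℕ), 5 ≤ p → ¬ p ∣ f →
    f ≠ 0 → 2 ∣ f → l ∣ f →
    ∀ (A B : ℤ), CQ A B → TorX A B → NLex A B →
    ∀ (K : IntermediateField ℚ ℂ) [FiniteDimensional ℚ K] [FiniteDimensional ℚ (kk A B)]
    (hk : kk A B ≤ K), ¬ p ∣ Module.finrank (kk A B) (IntermediateField.extendScalars hk) →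
    Sub K (RF (idl (f * p)) : IntermediateField (kk A B) ℂ) →
    ∀ (Bn : ℕ → IntermediateField ℚ ℂ), (∀ n, IsLayer l n (Bn n)) → Monotone Bn →
    (∀ n, Sub (K ⊔ Bn n) (RF (idl (f * l ^ (n + h) * p)) : IntermediateField (kk A B) ℂ)) →
    ∃ (K'' K' : IntermediateField ℚ ℂ), FiniteDimensional ℚ K'' ∧ FiniteDimensional ℚ K' ∧
      SetQD p l (kk A B) K K'' K' Bn ∧ HasH A B K'' ∧
      ∀ n, Sub (K'' ⊔ Bn n) (RF (idl (f * l ^ (n + h) * p)) : IntermediateField (kk A B) ℂ)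

/-- FIN1: block K combined with the unit theorem. -/
def S_FIN1 : Prop := ∀ (p l : ℕ) [Fact p.Prime] [Fact l.Prime] (h f : ℕ), 5 ≤ p → ¬ p ∣ f →
    f ≠ 0 → 2 ∣ f → l ∣ f →
    ∀ (A B : ℤ), CQ A B → TorX A B → ∀ V : ValuationSubring ℂ, V.valuation (p : ℂ) < 1 →
    ∀ (N₀ : ℕ) (ι : Type) [Finite ι] (R : Reps A B N₀ ι)
    (K : IntermediateField ℚ ℂ) [FiniteDimensional ℚ K] [FiniteDimensional ℚ (kk A B)]
    (hk : kk A B ≤ K), ¬ p ∣ Module.finrank (kk A B) (IntermediateField.extendScalars hk) →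
    Sub K (RF (idl (f * p)) : IntermediateField (kk A B) ℂ) →
    ∀ (Bn : ℕ → IntermediateField ℚ ℂ) [∀ n, FiniteDimensional ℚ ↥(K ⊔ Bn n)],
    (∀ n, IsLayer l n (Bn n)) → Monotone Bn →
    (∀ n, Sub (K ⊔ Bn n) (RF (idl (f * l ^ (n + h) * p)) : IntermediateField (kk A B) ℂ)) →
    ∃ (a : ℕ) (H : Finset ℂ), 1 < a ∧ a.Coprime (6 * f * p) ∧ IsHalf (R.L R.i0) a H ∧
      ∃ n₁ : ℕ, ∀ n, n₁ ≤ n → ∀ b : ℕ, (∀ s < b, UnitAt p l h f V R H K Bn (n + s)) →
      ∀ L : IntermediateField ℚ ℂ, kk A B ≤ L → L ≤ K ⊔ Bn (n + b) →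
        padicValNat p (classNo L) = padicValNat p (classNo (L ⊓ (K ⊔ Bn n)))

open TWK.OMPx in
theorem t_SETD : S_SETD := by
  intro p l hp hl h f h5 hpf hf0 h2f hlf A B hc T hNL K _ hfk hk hcop hKf Bn hlay hmono hsub
  have hpp : p.Prime := hp.out
  have hlp : l.Prime := hl.out
  have hfp0 : f * p ≠ 0 := mul_ne_zero hf0 hpp.ne_zero
  set F2 : IntermediateField (kk A B) ℂ := RF (idl (A := A) (B := B) (f * p)) with hF2
  have hfin2 : FiniteDimensional (kk A B) F2 := T.fin _ (idl_ne hfp0)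
  have hfd2 : FiniteDimensional ℚ (F2.restrictScalars ℚ) := by
    have : FiniteDimensional ℚ F2 := FiniteDimensional.trans ℚ (kk A B) F2
    exact this
  have hk2 : kk A B ≤ F2.restrictScalars ℚ := fun x hx => F2.algebraMap_mem ⟨x, hx⟩
  have he2 : IntermediateField.extendScalars hk2 = F2 := SetLike.ext fun x => Iff.rfl
  have hK1 : K ≤ F2.restrictScalars ℚ := fun x hx => hKf x hx
  have h2p : 2 * p ∣ f * p := Nat.mul_dvd_mul_right h2f p
  have h2p0 : 2 * p ≠ 0 := mul_ne_zero two_ne_zero hpp.ne_zero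
  obtain ⟨ζ, hζ⟩ : ∃ ζ : ℂ, IsPrimitiveRoot ζ (2 * p) := ⟨_, Complex.isPrimitiveRoot_exp _ h2p0⟩
  have hζm : ζ ∈ F2 := zeta_mem T hNL h2p0 hfp0 h2p hζ.pow_eq_one
  refine ⟨F2.restrictScalars ℚ, F2.restrictScalars ℚ, hfd2, hfd2, ?_, ?_, ?_⟩
  · refine ⟨⟨hk2, ?_, ?_, hlay, hmono⟩, hk, hK1, hcop, ⟨ζ, hζm, hζ⟩, hK1, le_rfl⟩
    · rw [he2]
      exact T.gal _ (idl_ne hfp0)
    · rw [he2]
      exact T.comm _ (idl_ne hfp0)
  · intro x hx
    exact T.mono ⊤ _ le_top hx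
  · intro n
    have hd : f * p ∣ f * l ^ (n + h) * p := by
      have : f * l ^ (n + h) * p = f * p * l ^ (n + h) := by ring
      rw [this]
      exact dvd_mul_right _ _
    have hle : F2.restrictScalars ℚ ⊔ Bn n ≤
        (RF (idl (A := A) (B := B) (f * l ^ (n + h) * p))).restrictScalars ℚ := by
      refine sup_le (fun x hx => ?_) (fun x hx => ?_)
      · exact T.mono _ _ (idl_le hd) hx
      · exact hsub n x ((le_sup_right : Bn n ≤ K ⊔ Bn n) hx)
    exact fun x hx => hle hx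

open TWK.FIN1x in
theorem t_FIN1 (hSETD : S_SETD) (hK5 : S_K5) (hMEM : Sy_MEM) (hTHN : Sz_THN) : S_FIN1 := by
  intro p l hp hl h f h5 hpf hf0 h2f hlf A B hc T V hV N₀ ι _ R K _ _ hk hcop hKf Bn _ hlay hmono
    hsub
  have hpp : p.Prime := hp.out
  have hlp : l.Prime := hl.out
  have hpl : p ≠ l := by
    rintro rfl
    exact hpf hlf
  have hNL : NLex A B := ⟨_, _, _, R.nl R.i0⟩
  obtain ⟨K'', K', hfd1, hfd2, hD, hHas, hsub''⟩ := hSETD p l h f h5 hpf hf0 h2f hlf A B hc T hNL K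
    hk hcop hKf Bn hlay hmono
    hsub
  have hfB : ∀ n, FiniteDimensional ℚ (Bn n) := fun n => (LAY_thm l n (Bn n) (hlay n)).1
  have hfd1' : ∀ n, FiniteDimensional ℚ ↥(K'' ⊔ Bn n) := fun n => by
    have := hfB n
    exact IntermediateField.finiteDimensional_sup K'' (Bn n)
  have hfd2' : ∀ n, FiniteDimensional ℚ ↥(K' ⊔ Bn n) := fun n => by
    have := hfB n
    exact IntermediateField.finiteDimensional_sup K' (Bn n)
  have hAC : IsAlgClosed (IsLocalRing.ResidueField V) := isAlgClosed_residueField V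
  have hCP : CharP (IsLocalRing.ResidueField V) p := charP_residueField V hpp hV
  set a : ℕ := 6 * f * p + 1 with hadef
  have ha1 : 1 < a := by
    have : 0 < 6 * f * p := Nat.mul_pos (Nat.mul_pos (by norm_num) (Nat.pos_of_ne_zero hf0)) hpp.pos
    omega
  have hacop : a.Coprime (6 * f * p) := by
    rw [hadef, Nat.coprime_comm]
    exact Nat.coprime_self_add_right.2 (Nat.coprime_one_right _)
  have haodd : Odd a := by
    rw [hadef]
    refine Even.add_one ?_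
    exact ((by decide : Even 6).mul_right f).mul_right p
  obtain ⟨H, hH, hθ⟩ := hTHN A B hc T N₀ ι R a haodd
  refine ⟨a, H R.i0, ha1, hacop, hH R.i0, ?_⟩
  obtain ⟨n₀, hn₀⟩ := hK5 p l hpl (IsLocalRing.ResidueField V) A B hc T N₀ ι R K K'' K' Bn hD hHas
    a (H R.i0) (by omega) (hH R.i0) (f * p * l).primeFactors
  refine ⟨n₀, ?_⟩
  have step : ∀ n, n₀ ≤ n → UnitAt p l h f V R (H R.i0) K Bn n →
      ∀ L : IntermediateField ℚ ℂ, kk A B ≤ L → L ≤ K ⊔ Bn (n + 1) →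
        padicValNat p (classNo L) = padicValNat p (classNo (L ⊓ (K ⊔ Bn n))) := by
    intro n hn hU L hkL hL
    set m : ℕ := f * l ^ (n + 1 + h) * p with hm
    have hm0 : m ≠ 0 := mul_ne_zero (mul_ne_zero hf0 (pow_ne_zero _ hlp.ne_zero)) hpp.ne_zero
    have hm5 : 5 ≤ m := by
      refine h5.trans (Nat.le_of_dvd (Nat.pos_of_ne_zero hm0) ?_)
      exact dvd_mul_left p _
    have hm2 : ¬ ((m : ℕ) : OO A B) ∣ 2 := not_dvd_two hm5
    have hmu : ¬ IsUnit ((m : ℕ) : OO A B) := fun hu => hm2 hu.dvd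
    have h6f : f ∣ 6 * f * p := ⟨6 * p, by ring⟩
    have h6p : p ∣ 6 * f * p := dvd_mul_left p _
    have haf : a.Coprime f := hacop.coprime_dvd_right h6f
    have hal : a.Coprime l := haf.coprime_dvd_right hlf
    have hap : a.Coprime p := hacop.coprime_dvd_right h6p
    have ham : a.Coprime m := (haf.mul_right (hal.pow_right _)).mul_right hap
    obtain ⟨θ, hpt, hom, hne⟩ := hθ m hm0 hmu ham
    have h0 : kk A B ≤ K ⊔ Bn (n + 1) := hk.trans le_sup_left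
    let i1 : Algebra (kk A B) ↥(K ⊔ Bn (n + 1)) := algC h0
    have hsubm : Sub (K ⊔ Bn (n + 1)) (RF (idl (A := A) (B := B) m)) := hsub (n + 1)
    have hsubm'' : Sub (K'' ⊔ Bn (n + 1)) (RF (idl (A := A) (B := B) m)) := hsub'' (n + 1)
    have hM := hMEM A B (RF (idl (A := A) (B := B) m)) (T.fin _ (idl_ne hm0))
      (T.gal _ (idl_ne hm0)) (T.comm _ (idl_ne hm0)) (K ⊔ Bn (n + 1)) h0 hsubm θ hne
    have hmem : cW h0 θ ∈ K ⊔ Bn (n + 1) := by
      rw [hM.1]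
      exact (hM.2.1 _).1
    refine hn₀ n hn m hm0 hm2 ham ?_ hsubm'' θ hne hom h0 ⟨cW h0 θ, hmem⟩ rfl
      (hU θ hpt h0 ⟨cW h0 θ, hmem⟩ rfl) L hkL hL
    intro q hq hqm
    refine Nat.mem_primeFactors.2 ⟨hq, ?_, mul_ne_zero (mul_ne_zero hf0 hpp.ne_zero) hlp.ne_zero⟩
    rcases (Nat.Prime.dvd_mul hq).1 hqm with h1 | h1
    · rcases (Nat.Prime.dvd_mul hq).1 h1 with h2 | h2
      · exact (h2.mul_right p).mul_right l
      · exact (hq.dvd_of_dvd_pow h2).mul_left _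
    · exact (h1.mul_left f).mul_right l
  intro n hn b
  induction b with
  | zero =>
    intro _ L hkL hL
    have : L ⊓ (K ⊔ Bn n) = L := inf_eq_left.2 (by simpa using hL)
    rw [this]
  | succ b ih =>
    intro hU L hkL hL
    have h1 := step (n + b) (by omega) (hU b (Nat.lt_succ_self b)) L hkL hL
    have hkKb : kk A B ≤ L ⊓ (K ⊔ Bn (n + b)) := le_inf hkL (hk.trans le_sup_left)
    have h2 := ih (fun s hs => hU s (Nat.lt_succ_of_lt hs)) (L ⊓ (K ⊔ Bn (n + b))) hkKb inf_le_right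
    rw [h1, h2, inf_assoc]
    have h3 : (K ⊔ Bn (n + b)) ⊓ (K ⊔ Bn n) = K ⊔ Bn n :=
      inf_eq_right.2 (sup_le_sup_left (hmono (Nat.le_add_right n b)) K)
    rw [h3]

end Pool.Agent.TWQK
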