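import Pool.Agent.TWK.NPW1

/-!
# TWQK, module PWL2: `p`-th powers in an abelian extension, for a character which is not trivial on an automorphism fixing the
`p`-th roots of unity (helper96), Theorem C of MP_b78433_nt without condition at `p`

`k ≤ L ≤ M`, `M / k` abelian, `L` may contain the `p`-th roots of unity. Let `g''` in `Gal(M/k)` fix the `p`-th roots of unity, `g` its
restriction to `L`, `χ g ≠ 1`. If all `sE p χ θ' c₀` are `p`-th powers in `M` then all `sE p χ θ c₀` are `p`-th powers in `L`: if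
`sE p χ θ' c₀ = y ^ p` then `g'' y / y` is fixed by `Gal(M/L)`, and `g (sE p χ θ' c₀) / sE p χ θ' c₀ = sE p χ θ c₀` times a `p`-th power of `L`, if
`θ' = θ ((χ g - 1)⁻¹ ·)`.
-/

set_option autoImplicit false

open NumberField IsDedekindDomain Finset
open scoped nonZeroDivisors Pointwise

namespace Pool.Agent.TWQK

open Pool.Agent.MU3 Pool.Agent.RI Pool.Agent.MUXK Pool.Agent.TWK

/-- PWL2 -/
def S_PWL2 : Prop := ∀ (p : ℕ) [Fact p.Prime] (F : Type) [Field F]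
    (k L M : Type) [Field k] [NumberField k] [Field L] [NumberField L] [Field M] [NumberField M]
    [Algebra k L] [Algebra L M] [Algebra k M] [IsScalarTower k L M] [IsGalois L M]
    (ω : M), (∀ σ τ : M ≃ₐ[k] M, σ * τ = τ * σ) → IsPrimitiveRoot ω p →
    ∀ (g'' : M ≃ₐ[k] M) (g : L ≃ₐ[k] L), (∀ x : L, algebraMap L M (g x) = g'' (algebraMap L M x)) →
    g'' ω = ω → ∀ (χ : (L ≃ₐ[k] L) →* Fˣ), χ g ≠ 1 → ∀ (c : L), c ≠ 0 → ∀ θ : F →+ ZMod p,
    (∀ x : L, x ^ p ≠ sE p χ θ c) → ∃ θ' : F →+ ZMod p, ∀ y : M, y ^ p ≠ algebraMap L M (sE p χ θ' c)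

theorem t_PWL2 : S_PWL2 := by
  intro p _ F _ k L M _ _ _ _ _ _ _ _ _ _ _ ω hab hω g'' g hgg hgω χ hg c hc θ hθ
  have hp : p.Prime := Fact.out
  have hpz : NeZero p := ⟨hp.ne_zero⟩
  set a : F := ((χ g : Fˣ) : F) - 1 with ha
  have ha0 : a ≠ 0 := fun h2 => hg (Units.ext (sub_eq_zero.1 h2))
  let θ' : F →+ ZMod p := θ.comp (AddMonoidHom.mulLeft a⁻¹)
  have hθ' : ∀ x, θ' x = θ (a⁻¹ * x) := fun x => rfl
  refine ⟨θ', fun y hy => ?_⟩
  let e : (L ≃ₐ[k] L) → ℕ := fun δ => (θ' ((χ δ)⁻¹ : Fˣ)).val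
  have hδ : ∀ δ : L ≃ₐ[k] L, δ c ≠ 0 := fun δ h => hc ((map_eq_zero δ).1 h)
  have hs0 : sE p χ θ' c ≠ 0 := prod_ne_zero_iff.2 fun δ _ => pow_ne_zero _ (hδ δ)
  have hy0 : y ≠ 0 := by
    rintro rfl
    rw [zero_pow hp.ne_zero] at hy
    exact hs0 ((map_eq_zero (algebraMap L M)).1 hy.symm)
  -- `g'' y / y` is in `L`
  have hfix : ∀ τ : M ≃ₐ[L] M, τ (g'' y / y) = g'' y / y := by
    intro τ
    have h1 : (τ y / y) ^ p = 1 := by
      rw [div_pow, ← map_pow, hy, AlgEquiv.commutes, div_self]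
      exact fun h => hs0 ((map_eq_zero (algebraMap L M)).1 h)
    obtain ⟨i, -, hi⟩ := hω.eq_pow_of_pow_eq_one h1
    have h2 : τ y = ω ^ i * y := by
      rw [hi, div_mul_cancel₀ _ hy0]
    have h3 : τ (g'' y) = g'' (τ y) := by
      have := DFunLike.congr_fun (hab (τ.restrictScalars k) g'') y
      exact this
    have hω0 : ω ≠ 0 := hω.ne_zero hp.ne_zero
    rw [map_div₀, h3, h2, map_mul, map_pow, hgω, mul_div_mul_left _ _ (pow_ne_zero i hω0)]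
  obtain ⟨z, hz⟩ := (IsGalois.mem_range_algebraMap_iff_fixed (F := L) (g'' y / y)).2 hfix
  have hz' : z ^ p = g (sE p χ θ' c) / sE p χ θ' c := by
    apply (algebraMap L M).injective
    rw [map_pow, hz, div_pow, ← map_pow, hy, map_div₀, hgg]
  -- the value of `g (sE θ') / sE θ'`
  have h1 : g (sE p χ θ' c) / sE p χ θ' c =
      ∏ δ : L ≃ₐ[k] L, (δ c) ^ e (g⁻¹ * δ) / (δ c) ^ e δ := by
    have h2 : g (sE p χ θ' c) = ∏ δ : L ≃ₐ[k] L, (δ c) ^ e (g⁻¹ * δ) := by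
      unfold sE
      rw [map_prod]
      refine Fintype.prod_equiv (Equiv.mulLeft g) _ _ fun δ => ?_
      simp only [Equiv.coe_mulLeft, inv_mul_cancel_left, map_pow]
      rfl
    rw [h2, prod_div_distrib]
    rfl
  have h3 : ∀ δ : L ≃ₐ[k] L, ((e (g⁻¹ * δ) : ℕ) : ZMod p) - ((e δ : ℕ) : ZMod p) =
      (((θ ((χ δ)⁻¹ : Fˣ)).val : ℕ) : ZMod p) := by
    intro δ
    simp only [e]
    rw [ZMod.natCast_zmod_val, ZMod.natCast_zmod_val, ZMod.natCast_zmod_val, ← map_sub, hθ']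
    congr 1
    have h4 : (((χ (g⁻¹ * δ))⁻¹ : Fˣ) : F) = ((χ g : Fˣ) : F) * (((χ δ)⁻¹ : Fˣ) : F) := by
      rw [map_mul, map_inv, mul_inv_rev, inv_inv, mul_comm, Units.val_mul]
    rw [h4]
    have h5 : ((χ g : Fˣ) : F) * (((χ δ)⁻¹ : Fˣ) : F) - (((χ δ)⁻¹ : Fˣ) : F) =
        a * (((χ δ)⁻¹ : Fˣ) : F) := by
      rw [ha]
      ring
    rw [h5, ← mul_assoc, inv_mul_cancel₀ ha0, one_mul]
  choose w hw0 hw using fun δ : L ≃ₐ[k] L =>
    NPW1x.pow_mod p (δ c) (hδ δ) (e (g⁻¹ * δ)) (e δ) _ (h3 δ)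
  have h6 : g (sE p χ θ' c) / sE p χ θ' c = sE p χ θ c * (∏ δ, w δ) ^ p := by
    rw [h1, prod_congr rfl fun δ _ => hw δ, prod_mul_distrib, prod_pow]
    rfl
  have h7 : (∏ δ, w δ) ≠ 0 := prod_ne_zero_iff.2 fun δ _ => hw0 δ
  apply hθ (z / ∏ δ, w δ)
  rw [div_pow, hz', h6, mul_div_assoc, div_self (pow_ne_zero p h7), mul_one]

end Pool.Agent.TWQK
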