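import Pool.Agent.TWQK.PWL2
import Pool.Agent.TWK.StK3

/-!
# TWQK, statements: block K without condition on the `p`-th roots of unity in `K B_n` (helper96), Theorem C of MP_b78433_nt

As `SetC`, `SetD`, `S_K4` of `Pool/Agent/TWK/StK2.lean`, `StK3.lean`, without the condition that the fields `K B_n` contain no `p`-th roots of unity
(the automorphism `g''` of `K' B_(n+1)` is trivial on `K'`, so on the `p`-th roots of unity, and `S_PWL2` replaces `S_PWL1`).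
-/

set_option autoImplicit false

open NumberField IsDedekindDomain Finset
open scoped nonZeroDivisors Pointwise

namespace Pool.Agent.TWQK

open Pool.Agent.MU3 Pool.Agent.RI Pool.Agent.RID Pool.Agent.MUXK Pool.Agent.TWK

/-- The fields of block K: `k ≤ K ≤ K'' ≤ K'`, `K' / k` abelian, `[K : k]` prime to `p`, `K'` contains the `2p`-th roots of
unity. -/
structure SetQD (p l : ℕ) (k K K'' K' : IntermediateField ℚ ℂ) (B : ℕ → IntermediateField ℚ ℂ) :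
    Prop where
  bas : BasC l k K' B
  hk : k ≤ K
  le : K ≤ K'
  cop : ¬ p ∣ Module.finrank k (IntermediateField.extendScalars hk)
  ze : ∃ ζ ∈ K', IsPrimitiveRoot ζ (2 * p)
  le1 : K ≤ K''
  le2 : K'' ≤ K'

/-- K4: the result of block K for subfields of `ℂ`: `c` is in `K'' B_(n+1)`.
Uses S_K3, S_PWL2, S_SUBC, S_GALC, S_RAMC, S_LFT2, S_DEG2, S_NRM2, S_DSC2. -/
def S_K4 : Prop := ∀ (p l : ℕ) [Fact p.Prime] [Fact l.Prime], p ≠ l →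
    ∀ (F : Type) [Field F] [CharP F p] [IsAlgClosed F]
    (k K K'' K' : IntermediateField ℚ ℂ) (B : ℕ → IntermediateField ℚ ℂ)
    [FiniteDimensional ℚ k] [FiniteDimensional ℚ K] [FiniteDimensional ℚ K'']
    [FiniteDimensional ℚ K'] [∀ n, FiniteDimensional ℚ ↥(K ⊔ B n)]
    [∀ n, FiniteDimensional ℚ ↥(K'' ⊔ B n)] [∀ n, FiniteDimensional ℚ ↥(K' ⊔ B n)],
    SetQD p l k K K'' K' B →
    ∃ S' : Finset ℕ, 2 ∈ S' ∧ p ∈ S' ∧ (∀ ℓ ∈ S', ℓ.Prime) ∧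
    ∀ S : Finset ℕ, S' ⊆ S → (∀ ℓ ∈ S, ℓ.Prime) → ∃ n₀ : ℕ, ∀ n, n₀ ≤ n →
    ∀ (h : k ≤ K ⊔ B (n + 1)) (h' : k ≤ K'' ⊔ B (n + 1)),
    letI := algC h
    letI := algC h'
    ∀ (c : ↥(K'' ⊔ B (n + 1))) (c₀ : ↥(K ⊔ B (n + 1))), c ≠ 0 → SU S ↥(K'' ⊔ B (n + 1)) c →
    KolInP p k ↥(K'' ⊔ B (n + 1)) {g | ∀ x : ↥(K'' ⊔ B (n + 1)), (x : ℂ) ∈ K'' → g x = x} S c →
    (c₀ : ℂ) = ∏ᶠ g : NC h' (K ⊔ B (n + 1)),
      (((g : ↥(K'' ⊔ B (n + 1)) ≃ₐ[k] ↥(K'' ⊔ B (n + 1))) c : ↥(K'' ⊔ B (n + 1))) : ℂ) →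
    (∀ χ : (↥(K ⊔ B (n + 1)) ≃ₐ[k] ↥(K ⊔ B (n + 1))) →* Fˣ,
      (∃ g : ↥(K ⊔ B (n + 1)) ≃ₐ[k] ↥(K ⊔ B (n + 1)),
        (∀ x : ↥(K ⊔ B (n + 1)), (x : ℂ) ∈ K ⊔ B n → g x = x) ∧ χ g ≠ 1) →
      ∃ θ : F →+ ZMod p, ∀ y : ↥(K ⊔ B (n + 1)), y ^ p ≠ sE p χ θ c₀) →
    ∀ L : IntermediateField ℚ ℂ, k ≤ L → L ≤ K ⊔ B (n + 1) →
      padicValNat p (classNo L) = padicValNat p (classNo (L ⊓ (K ⊔ B n)))

end Pool.Agent.TWQK
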