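import Pool.Agent.TWQK.StK4
import Pool.Agent.TWK.K5

/-!
# TWQK, statement K5: block K in the vocabulary of the elliptic units (helper96), Theorem C of MP_b78433_nt

As `S_K5` of `Pool/Agent/TWK/StK5.lean`, with `SetQD` in place of `SetD` (no condition on roots of unity in `K B_n`).
-/

set_option autoImplicit false

open NumberField IsDedekindDomain Finset
open scoped nonZeroDivisors Pointwise

namespace Pool.Agent.TWQK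

open _root_.MU3 Pool.Agent.MU3 Pool.Agent.MU3A Pool.Agent.MU3B Pool.Agent.RI Pool.Agent.RID
  Pool.Agent.MUX Pool.Agent.MUXK Pool.Agent.MUXW Pool.Agent.TWK
open Pool.Agent.MU3V (Sub GD)

/-- K5: from the non-power statement for the norm of the elliptic unit to `K B_(n+1)` to the class numbers of all
`k ≤ L ≤ K B_(n+1)`; the level `m` is any number with prime factors in a fixed finite set `S₀`. -/
def S_K5 : Prop := ∀ (p l : ℕ) [Fact p.Prime] [Fact l.Prime], p ≠ l →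
    ∀ (F : Type) [Field F] [CharP F p] [IsAlgClosed F]
    (A B : ℤ), CQ A B → TorX A B → ∀ (N₀ : ℕ) (ι : Type) [Finite ι] (R : Reps A B N₀ ι)
    (K K'' K' : IntermediateField ℚ ℂ) (Bn : ℕ → IntermediateField ℚ ℂ)
    [FiniteDimensional ℚ (kk A B)] [FiniteDimensional ℚ K] [FiniteDimensional ℚ K'']
    [FiniteDimensional ℚ K'] [∀ n, FiniteDimensional ℚ ↥(K ⊔ Bn n)]
    [∀ n, FiniteDimensional ℚ ↥(K'' ⊔ Bn n)] [∀ n, FiniteDimensional ℚ ↥(K' ⊔ Bn n)],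
    SetQD p l (kk A B) K K'' K' Bn → HasH A B K'' →
    ∀ (a : ℕ) (H : Finset ℂ), a ≠ 0 → IsHalf (R.L R.i0) a H → ∀ S₀ : Finset ℕ, ∃ n₀ : ℕ,
    ∀ n, n₀ ≤ n → ∀ m : ℕ, m ≠ 0 → ¬ ((m : ℕ) : OO A B) ∣ 2 → a.Coprime m →
    (∀ q : ℕ, q.Prime → q ∣ m → q ∈ S₀) →
    Sub (K'' ⊔ Bn (n + 1)) (RF (idl (A := A) (B := B) m)) →
    ∀ θ : (RF (idl (A := A) (B := B) m) : IntermediateField (kk A B) ℂ), θ ≠ 0 →
    (θ : ℂ) = ThetaH (R.L R.i0) H (R.om R.i0 / emb ((m : ℕ) : OO A B)) →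
    ∀ (h : kk A B ≤ K ⊔ Bn (n + 1)), letI := algC h
    ∀ c₀ : ↥(K ⊔ Bn (n + 1)), (c₀ : ℂ) = cW h θ →
    (∀ χ : (↥(K ⊔ Bn (n + 1)) ≃ₐ[kk A B] ↥(K ⊔ Bn (n + 1))) →* Fˣ,
      (∃ g : ↥(K ⊔ Bn (n + 1)) ≃ₐ[kk A B] ↥(K ⊔ Bn (n + 1)),
        (∀ x : ↥(K ⊔ Bn (n + 1)), (x : ℂ) ∈ K ⊔ Bn n → g x = x) ∧ χ g ≠ 1) →
      ∃ t : F →+ ZMod p, ∀ y : ↥(K ⊔ Bn (n + 1)), y ^ p ≠ sE p χ t c₀) →
    ∀ L : IntermediateField ℚ ℂ, kk A B ≤ L → L ≤ K ⊔ Bn (n + 1) →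
      padicValNat p (classNo L) = padicValNat p (classNo (L ⊓ (K ⊔ Bn n)))

end Pool.Agent.TWQK
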